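import Pool.Agent.H529.Q.QDefs
import Pool.Graph.R_seed8.Y826.ZC.Exact

/-! Exact patterns of primes in every admissible set of 44 shifts, from `DHL[44,2]` for linear forms
(the port of the library file `Pool/Graph/R_seed8/Y826/ZC/Exact.lean` from 45 to 44). -/

set_option autoImplicit false

open Finset Filter

namespace Pool.Agent.H618.Q

open Pool.Agent.H95R2.BG.LF Pool.Agent.H529.Q
open Pool.Agent.Y826.ZC (Pat Pat_finite Pat_anti exact_forms exact_asy)

theorem exact_core (hD : Dhl44L) (T : Finset ℤ) (hT : T.card = 44)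
    (hadm : ∀ p : ℕ, p.Prime → ∃ r : ℤ, ∀ s ∈ T, ¬ (p : ℤ) ∣ r + s)
    (q : ℕ) (r : ℤ) (hq : 0 < q) (hr : ∀ s ∈ T, IsCoprime (r + s) (q : ℤ)) (R : ℕ)
    (hR : ∀ s ∈ T, |s| ≤ R) (ε : ℝ) (hε : 0 < ε) :
    ∀ᶠ x : ℝ in atTop, ∃ B ⊆ T, 2 ≤ B.card ∧ x ^ (1 - ε) ≤ ((Pat q r B R x).ncard : ℝ) := by
  classical
  obtain ⟨Q, c, hQ0, hcR, hcr, hqQ, hpr, hcomp⟩ := exact_forms T q r hq hr R hR
  set f := T.orderEmbOfFin hT with hf
  have hmem : ∀ i, f i ∈ T := fun i => Finset.orderEmbOfFin_mem T hT i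
  have hcast : ∀ i, (((c + f i).toNat : ℕ) : ℤ) = c + f i := by
    intro i
    apply Int.toNat_of_nonneg
    have h1 := (abs_le.1 (hR _ (hmem i))).1
    omega
  have hadmL : AdmissibleL (fun _ : Fin 44 => Q) (fun i => (c + f i).toNat) := by
    refine ⟨fun _ => hQ0, fun i j hij h => ?_, fun p hp => ?_⟩
    · have h1 : (c + f j).toNat = (c + f i).toNat := Nat.eq_of_mul_eq_mul_left hQ0 h
      have h2 := hcast i
      have h3 := hcast j
      rw [h1, h2] at h3
      exact hij (f.injective (by linarith))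
    · by_cases hpQ : p ∣ Q
      · refine ⟨0, fun i h => hpr _ (hmem i) p hp hpQ ?_⟩
        rw [Nat.mul_zero, zero_add] at h
        rw [← hcast i]
        exact_mod_cast h
      · obtain ⟨r', hr'⟩ := hadm p hp
        have h1 : IsCoprime (Q : ℤ) (p : ℤ) := by
          rw [Nat.isCoprime_iff_coprime, Nat.coprime_comm, hp.coprime_iff_not_dvd]
          exact hpQ
        obtain ⟨u, v, huv⟩ := h1
        have hp0 : (p : ℤ) ≠ 0 := by exact_mod_cast hp.ne_zero
        refine ⟨((u * (r' - c)) % p).toNat, fun i h => hr' _ (hmem i) ?_⟩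
        have h2 : (((u * (r' - c)) % p).toNat : ℤ) = (u * (r' - c)) % p :=
          Int.toNat_of_nonneg (Int.emod_nonneg _ hp0)
        have h3 : (p : ℤ) ∣ (Q : ℤ) * (((u * (r' - c)) % p).toNat : ℤ) + (((c + f i).toNat : ℕ) : ℤ) := by
          exact_mod_cast h
        rw [h2, hcast i, Int.emod_def] at h3
        have h4 : r' + f i = (Q : ℤ) * (u * (r' - c) - p * (u * (r' - c) / p)) + (c + f i) +
            p * (v * (r' - c) + Q * (u * (r' - c) / p)) := by
          linear_combination (-(r' - (c : ℤ))) * huv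
        rw [h4]
        exact dvd_add h3 (dvd_mul_right _ _)
  have hQr : (0 : ℝ) < 2 * (Q : ℝ) := by
    have : (0 : ℝ) < Q := by exact_mod_cast hQ0
    linarith
  have h2 : Tendsto (fun x : ℝ => x / (2 * (Q : ℝ))) atTop atTop := tendsto_id.atTop_div_const hQr
  filter_upwards [exact_asy ε hε (2 ^ 44 + 1) (2 * (Q : ℝ)) hQr,
    h2.eventually (hD _ _ hadmL (ε / 2) (by positivity)), eventually_ge_atTop (2 * (c : ℝ)),
    eventually_gt_atTop (0 : ℝ)] with x hx1 hx2 hx3 hx4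
  by_contra hcon
  push Not at hcon
  set G := goodL (fun _ : Fin 44 => Q) (fun i => (c + f i).toNat) (x / (2 * (Q : ℝ))) with hG
  set Bn : ℕ → Finset ℤ := fun m =>
    T.filter (fun s => ∃ p : ℕ, p.Prime ∧ (p : ℤ) = ((Q * m + c : ℕ) : ℤ) + s) with hBn
  have hsum : ∀ (m : ℕ) (i : Fin 44), ((Q * m + (c + f i).toNat : ℕ) : ℤ) =
      ((Q * m + c : ℕ) : ℤ) + f i := by
    intro m i
    push_cast
    have := hcast i
    rw [this]
    ring
  have hmaps : ∀ m ∈ G, Bn m ∈ T.powerset.filter (fun B => 2 ≤ B.card) := by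
    intro m hm
    rw [hG, goodL, Finset.mem_filter] at hm
    obtain ⟨-, i, j, hij, hi, hj⟩ := hm
    rw [Finset.mem_filter, Finset.mem_powerset]
    refine ⟨Finset.filter_subset _ _, ?_⟩
    have h3 : f i ∈ Bn m := Finset.mem_filter.2 ⟨hmem i, _, hi, hsum m i⟩
    have h4 : f j ∈ Bn m := Finset.mem_filter.2 ⟨hmem j, _, hj, hsum m j⟩
    have h5 : f i ≠ f j := fun h => hij (f.injective h)
    exact Finset.one_lt_card.2 ⟨_, h3, _, h4, h5⟩
  have hfib : ∀ B ∈ T.powerset.filter (fun B => 2 ≤ B.card),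
      ((G.filter (fun m => Bn m = B)).card : ℝ) ≤ x ^ (1 - ε) := by
    intro B hB
    rw [Finset.mem_filter, Finset.mem_powerset] at hB
    refine le_trans ?_ (hcon B hB.1 hB.2).le
    have h3 : ((G.filter (fun m => Bn m = B) : Finset ℕ) : Set ℕ).ncard ≤ (Pat q r B R x).ncard := by
      refine Set.ncard_le_ncard_of_injOn (fun m => Q * m + c) ?_ ?_ (Pat_finite q r B R x)
      · intro m hm
        rw [Finset.mem_coe, Finset.mem_filter, hG, goodL, Finset.mem_filter, Finset.mem_Icc] at hm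
        obtain ⟨⟨⟨hm1, hm2⟩, -⟩, hmB⟩ := hm
        refine ⟨?_, ?_, fun y hy => ?_⟩
        · have h4 : (m : ℝ) ≤ x / (2 * (Q : ℝ)) :=
            (Nat.le_floor_iff (by positivity)).1 hm2
          rw [le_div_iff₀ hQr] at h4
          push_cast
          linarith
        · obtain ⟨k, hk⟩ := hqQ
          have h4 : ((Q : ℤ) * m) ≡ 0 [ZMOD q] := by
            rw [Int.modEq_zero_iff_dvd, hk]
            push_cast
            exact ⟨k * m, by ring⟩
          push_cast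
          simpa using h4.add hcr
        · rw [← hmB]
          constructor
          · intro hp
            have hyT : y ∈ T := by
              by_contra hyT
              exact hcomp m hm1 y hy hyT hp
            exact Finset.mem_filter.2 ⟨hyT, hp⟩
          · intro hy'
            exact (Finset.mem_filter.1 hy').2
      · intro m _ m' _ h
        have h4 : Q * m + c = Q * m' + c := h
        exact Nat.eq_of_mul_eq_mul_left hQ0 (by omega)
    rw [Set.ncard_coe_finset] at h3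
    exact_mod_cast h3
  have hcard : (G.card : ℝ) ≤ 2 ^ 44 * x ^ (1 - ε) := by
    have h3 := Finset.card_eq_sum_card_fiberwise (s := G)
      (t := T.powerset.filter (fun B => 2 ≤ B.card)) (f := Bn) hmaps
    have h4 : (G.card : ℝ) ≤ ((T.powerset.filter (fun B => 2 ≤ B.card)).card : ℝ) * x ^ (1 - ε) := by
      rw [h3]
      push_cast
      rw [← nsmul_eq_mul]
      exact Finset.sum_le_card_nsmul _ _ _ hfib
    refine h4.trans (mul_le_mul_of_nonneg_right ?_ (Real.rpow_nonneg hx4.le _))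
    have h5 : (T.powerset.filter (fun B => 2 ≤ B.card)).card ≤ 2 ^ 44 := by
      refine (Finset.card_filter_le _ _).trans ?_
      rw [Finset.card_powerset, hT]
    exact_mod_cast h5
  have h6 : (0 : ℝ) < x ^ (1 - ε) := Real.rpow_pos_of_pos hx4 _
  have h7 := hx1.trans (hx2.trans hcard)
  nlinarith

/-- exact patterns of primes in every admissible set of at least 44 shifts -/
theorem exact44_of (hD : Pool.Agent.H529.Q.Dhl44L) (S : Finset ℤ) (hS : 44 ≤ S.card)
    (hadm : ∀ p : ℕ, p.Prime → ∃ r : ℤ, ∀ s ∈ S, ¬ (p : ℤ) ∣ r + s) (q : ℕ) (r : ℤ) (hq : 0 < q)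
    (hr : ∀ s ∈ S, IsCoprime (r + s) (q : ℤ)) :
    ∃ B : Finset ℤ, B ⊆ S ∧ 2 ≤ B.card ∧ ∀ (R : ℕ) (ε : ℝ), 0 < ε → ∃ᶠ x : ℝ in atTop,
      x ^ (1 - ε) ≤ (Set.ncard {n : ℕ | (n : ℝ) ≤ x ∧ (n : ℤ) ≡ r [ZMOD q] ∧
        ∀ y : ℤ, |y| ≤ R → ((∃ p : ℕ, p.Prime ∧ (p : ℤ) = n + y) ↔ y ∈ B)} : ℝ) := by
  classical
  obtain ⟨T, hTS, hT⟩ := Finset.exists_subset_card_eq hS
  by_contra hcon
  push Not at hcon
  have h1 : ∀ B : Finset ℤ, ∃ (R : ℕ) (ε : ℝ), 0 < ε ∧ (B ⊆ S → 2 ≤ B.card →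
      ∀ᶠ x : ℝ in atTop, ((Pat q r B R x).ncard : ℝ) < x ^ (1 - ε)) := by
    intro B
    by_cases h : B ⊆ S ∧ 2 ≤ B.card
    · obtain ⟨R, ε, hε, h2⟩ := hcon B h.1 h.2
      refine ⟨R, ε, hε, fun _ _ => ?_⟩
      filter_upwards [h2] with x hx using hx
    · exact ⟨0, 1, one_pos, fun h2 h3 => absurd ⟨h2, h3⟩ h⟩
  choose Rf ef he hf using h1
  obtain ⟨R0, hR0⟩ : ∃ R0 : ℕ, ∀ s ∈ T, |s| ≤ R0 := by
    refine ⟨T.sup (fun s => s.natAbs), fun s hs => ?_⟩
    rw [Int.abs_eq_natAbs]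
    exact_mod_cast Finset.le_sup (f := fun s : ℤ => s.natAbs) hs
  obtain ⟨R, hR1, hR2⟩ : ∃ R : ℕ, R0 ≤ R ∧ ∀ B ∈ T.powerset, Rf B ≤ R :=
    ⟨R0 + T.powerset.sup Rf, by omega, fun B hB => (Finset.le_sup (f := Rf) hB).trans (by omega)⟩
  obtain ⟨B0, hB0, hmin⟩ := Finset.exists_min_image T.powerset ef ⟨∅, Finset.empty_mem_powerset _⟩
  have hcore := exact_core hD T hT
    (fun p hp => (hadm p hp).imp fun r' h s hs => h s (hTS hs)) q r hq (fun s hs => hr s (hTS hs)) R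
    (fun s hs => (hR0 s hs).trans (by exact_mod_cast hR1)) (ef B0) (he B0)
  have hall : ∀ᶠ x : ℝ in atTop, ∀ B ∈ T.powerset, 2 ≤ B.card →
      ((Pat q r B (Rf B) x).ncard : ℝ) < x ^ (1 - ef B) := by
    rw [Filter.eventually_all_finset]
    intro B hB
    by_cases h : 2 ≤ B.card
    · filter_upwards [hf B ((Finset.mem_powerset.1 hB).trans hTS) h] with x hx _ using hx
    · exact Filter.Eventually.of_forall fun x h' => absurd h' h
  obtain ⟨x, hx1, hx2, hx3⟩ := (hcore.and (hall.and (eventually_ge_atTop (1 : ℝ)))).exists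
  obtain ⟨B, hBT, hB2, hBx⟩ := hx1
  have hB : B ∈ T.powerset := Finset.mem_powerset.2 hBT
  have h4 := hx2 B hB hB2
  have h5 : (Pat q r B R x).ncard ≤ (Pat q r B (Rf B) x).ncard :=
    Set.ncard_le_ncard (Pat_anti q r B (hR2 B hB) x) (Pat_finite _ _ _ _ _)
  have h6 : ((Pat q r B R x).ncard : ℝ) ≤ ((Pat q r B (Rf B) x).ncard : ℝ) := by exact_mod_cast h5
  have h7 : x ^ (1 - ef B) ≤ x ^ (1 - ef B0) :=
    Real.rpow_le_rpow_of_exponent_le hx3 (by linarith [hmin B hB])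
  linarith

end Pool.Agent.H618.Q
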